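import Pool.Agent.R123.XI.Core

/-!
# The product formula for the cross-index fails for free simplicial `ℤ/4`-posets

There are finite free `ℤ/4`-simplicial posets `P` and `Q` with `Xind P = Xind Q = 2` and
`Xind (P × Q) ≤ 1`. `P` is the face poset of a torus with eight vertices, `Q` the face poset of two
octahedra.

The torus covers a Klein bottle. An order-preserving equivariant map to `Q_1 G` gives an invariant
integral cocycle, whose value on a path from `x` to `g² x` is `2` modulo `4`. Twice this value is the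
value on a null-homotopic path, so that it vanishes, a contradiction. On the other hand there is a
map which is equivariant for the subgroup of order two only; it can be used on the product with `Q`,
since `Q` is induced from this subgroup. For `Q` the same argument is used (a path from `x` to `-x`
on a sphere).
-/

set_option autoImplicit false

open Finset

namespace Pool.Agent.Results.MP_c44c69_co.SimplicialPosetsZ4

/-- A finite group is nice if it is a cyclic `p`-group or a generalized quaternion group whose order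
is a power of two (`QuaternionGroup n` has order `4 n`). -/
def IsNice (G : Type) [Group G] : Prop :=
  (IsCyclic G ∧ ∃ p k : ℕ, p.Prime ∧ Nat.card G = p ^ k) ∨
    ∃ k : ℕ, 1 ≤ k ∧ Nonempty (G ≃* QuaternionGroup (2 ^ k))

/-- The `G`-poset `Q_n G`. -/
structure Cross (G : Type) (n : ℕ) where
  /-- the element of the group -/
  elt : G
  /-- the level -/
  lev : Fin (n + 1)

@[ext] theorem Cross.ext' {G : Type} {n : ℕ} {a b : Cross G n} (h : a.elt = b.elt)
    (h' : a.lev = b.lev) : a = b := by
  cases a; cases b; simp_all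

instance (G : Type) (n : ℕ) : PartialOrder (Cross G n) where
  le a b := a = b ∨ a.lev < b.lev
  le_refl a := Or.inl rfl
  le_trans a b c h h' := by
    rcases h with rfl | h
    · exact h'
    · rcases h' with rfl | h'
      · exact Or.inr h
      · exact Or.inr (h.trans h')
  le_antisymm a b h h' := by
    rcases h with h | h
    · exact h
    · rcases h' with h' | h'
      · exact h'.symm
      · exact absurd (h.trans h') (lt_irrefl _)

instance (G : Type) [Group G] (n : ℕ) : MulAction G (Cross G n) where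
  smul g a := ⟨g * a.elt, a.lev⟩
  one_smul a := Cross.ext' (one_mul a.elt) rfl
  mul_smul g h a := Cross.ext' (mul_assoc g h a.elt) rfl

/-- The cross-index of a `G`-poset: the least `n` such that there is a `G`-map to `Q_n G`. -/
noncomputable def Xind (G P : Type) [Group G] [PartialOrder P] [MulAction G P] : ℕ :=
  sInf {n : ℕ | ∃ ψ : P → Cross G n, Monotone ψ ∧ ∀ (g : G) (p : P), ψ (g • p) = g • ψ p}

/-- A finite free `G`-simplicial poset: the group acts freely by order automorphisms, and the
elements below any given element are ordered like the nonempty subsets of a finite set. -/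
structure IsFreeSimplicial (G P : Type) [Group G] [PartialOrder P] [MulAction G P] : Prop where
  fin : Finite P
  mono : ∀ (g : G) (p q : P), p ≤ q → g • p ≤ g • q
  free : ∀ (g : G) (p : P), g • p = p → g = 1
  simplicial : ∀ p : P, ∃ k : ℕ, Nonempty ({q : P // q ≤ p} ≃o {s : Finset (Fin k) // s.Nonempty})

/-! ### The counterexample -/

open Pool.Agent.R123.XI

/-- the cyclic group of order four -/
abbrev Z4 := Multiplicative (ZMod 4)

theorem nice : IsNice Z4 := by
  left
  refine ⟨inferInstance, 2, 2, Nat.prime_two, ?_⟩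
  rw [Nat.card_eq_fintype_card]
  rfl

/-- faces of a complex -/
def Face {m : ℕ} (K : Finset (V m) → Prop) : Type := {s : Finset (V m) // K s}

instance {m : ℕ} (K : Finset (V m) → Prop) : PartialOrder (Face K) where
  le s t := s.1 ⊆ t.1
  le_refl s := Subset.refl s.1
  le_trans _ _ _ h h' := Subset.trans h h'
  le_antisymm _ _ h h' := Subtype.ext (Subset.antisymm h h')

/-- the action on the faces -/
@[instance_reducible] def faceAct {m : ℕ} (K : Finset (V m) → Prop)
    (hK : ∀ k s, K s → K (sh k s)) : MulAction Z4 (Face K) where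
  smul g s := ⟨sh g.toAdd s.1, hK g.toAdd s.1 s.2⟩
  one_smul s := Subtype.ext (sh_zero s.1)
  mul_smul g h s := Subtype.ext (sh_sh g.toAdd h.toAdd s.1).symm

instance : MulAction Z4 (Face K1) := faceAct K1 K1_inv
instance : MulAction Z4 (Face K2) := faceAct K2 K2_inv

/-- the elements below a face -/
theorem simplicial_face {m : ℕ} (K : Finset (V m) → Prop) (hne : ∀ s, K s → s.Nonempty)
    (hd : ∀ s t, K t → s ⊆ t → s.Nonempty → K s) (p : Face K) :
    ∃ k : ℕ, Nonempty ({q : Face K // q ≤ p} ≃o {s : Finset (Fin k) // s.Nonempty}) := by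
  classical
  obtain ⟨p, hp⟩ := p
  let e := p.equivFin
  refine ⟨p.card, ⟨⟨⟨fun q => ⟨univ.filter fun i => ((e.symm i : p) : V m) ∈ q.1.1, ?_⟩,
    fun s => ⟨⟨s.1.image fun i => ((e.symm i : p) : V m), ?_⟩, ?_⟩, ?_, ?_⟩, ?_⟩⟩⟩
  · obtain ⟨v, hv⟩ := hne _ q.1.2
    exact ⟨e ⟨v, q.2 hv⟩, by simpa using hv⟩
  · refine hd _ p hp ?_ (s.2.image _)
    intro v hv
    obtain ⟨i, _, rfl⟩ := mem_image.1 hv
    exact (e.symm i).2
  · intro v hv
    obtain ⟨i, _, rfl⟩ := mem_image.1 hv
    exact (e.symm i).2
  · intro q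
    apply Subtype.ext
    apply Subtype.ext
    ext v
    simp only [mem_image, mem_filter, mem_univ, true_and]
    constructor
    · rintro ⟨i, hi, rfl⟩
      exact hi
    · intro hv
      exact ⟨e ⟨v, q.2 hv⟩, by simpa using hv, by simp⟩
  · intro s
    apply Subtype.ext
    ext i
    simp only [mem_image, mem_filter, mem_univ, true_and]
    constructor
    · rintro ⟨j, hj, hji⟩
      have := e.symm.injective (Subtype.ext hji)
      rw [← this]
      exact hj
    · intro hi
      exact ⟨i, hi, rfl⟩
  · intro q r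
    constructor
    · intro h v hv
      have h1 : e ⟨v, q.2 hv⟩ ∈ univ.filter fun i => ((e.symm i : p) : V m) ∈ q.1.1 := by
        simpa using hv
      have h2 := h h1
      simpa using h2
    · intro h i hi
      have h1 : i ∈ univ.filter fun i => ((e.symm i : p) : V m) ∈ q.1.1 := hi
      rw [mem_filter] at h1
      exact mem_filter.2 ⟨mem_univ _, h h1.2⟩

theorem simp1 : IsFreeSimplicial Z4 (Face K1) where
  fin := Subtype.finite
  mono _ _ _ h := sh_mono h
  free g p h := free_of p.1 p.2.1 (K1_nopair p.1 p.2) g.toAdd (congrArg Subtype.val h)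
  simplicial := simplicial_face K1 (fun _ h => h.1) K1_down

theorem simp2 : IsFreeSimplicial Z4 (Face K2) where
  fin := Subtype.finite
  mono _ _ _ h := sh_mono h
  free g p h := free_of p.1 p.2.1 (K2_nopair p.1 p.2) g.toAdd (congrArg Subtype.val h)
  simplicial := simplicial_face K2 (fun _ h => h.1) K2_down

/-- the upper bound by the dimension -/
theorem exists_two {m : ℕ} (K : Finset (V m) → Prop) (hne : ∀ s, K s → s.Nonempty)
    (hc3 : ∀ s, K s → s.card ≤ 3) [MulAction Z4 (Face K)]
    (hfree : ∀ (g : Z4) (p : Face K), g • p = p → g = 1)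
    (hcd : ∀ (g : Z4) (p : Face K), (g • p).1.card = p.1.card) :
    ∃ ψ : Face K → Cross Z4 2, Monotone ψ ∧ ∀ (g : Z4) (p : Face K), ψ (g • p) = g • ψ p := by
  obtain ⟨c, hc⟩ := exists_color hfree
  have hcard : ∀ p : Face K, p.1.card - 1 < 2 + 1 := by
    intro p
    have := hc3 p.1 p.2
    omega
  refine ⟨fun p => ⟨c p, ⟨p.1.card - 1, hcard p⟩⟩, ?_, ?_⟩
  · intro p q hpq
    rcases eq_or_ne p q with rfl | hn
    · exact le_rfl
    · right
      have h1 : p.1 ⊂ q.1 := by
        refine lt_of_le_of_ne hpq ?_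
        intro h
        exact hn (Subtype.ext h)
      have h2 := card_lt_card h1
      have h3 := (hne p.1 p.2).card_pos
      rw [Fin.lt_def]
      simp only
      omega
  · intro g p
    refine Cross.ext' (hc g p) ?_
    apply Fin.ext
    change (g • p).1.card - 1 = p.1.card - 1
    rw [hcd]

theorem sh_card {m : ℕ} (k : ZMod 4) (s : Finset (V m)) : (sh k s).card = s.card := by
  apply card_image_of_injective
  intro u v h
  have h1 := congrArg Prod.fst h
  have h2 := congrArg Prod.snd h
  exact Prod.ext h1 (add_left_cancel h2)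

theorem K1_card (s : Finset (V 2)) (h : K1 s) : s.card ≤ 3 := by
  obtain ⟨_, k, t, ht, h2⟩ := h
  have h3 : ∀ t ∈ T, t.card ≤ 3 := by decide +kernel
  exact (card_le_card h2).trans (card_image_le.trans (h3 t ht))

theorem K2_card (s : Finset (V 3)) (h : K2 s) : s.card ≤ 3 := by
  have h1 : s.card = (s.image Prod.fst).card := by
    symm
    apply card_image_of_injOn
    intro u hu v hv he
    exact Prod.ext he ((h.2 u hu v hv).2 he)
  rw [h1]
  refine (card_le_univ _).trans ?_
  simp

theorem sInf_eq_two {S : Set ℕ} (h2 : 2 ∈ S) (h0 : 0 ∉ S) (h1 : 1 ∉ S) : sInf S = 2 := by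
  apply le_antisymm (Nat.sInf_le h2)
  have h := Nat.sInf_mem ⟨2, h2⟩
  by_contra hlt
  push Not at hlt
  interval_cases hS : sInf S
  · exact h0 h
  · exact h1 h

/-- an element of `Q_n G`, `n < 2`, as a pair -/
def toPair {n : ℕ} (hn : n < 2) (a : Cross Z4 n) : ZMod 4 × Fin 2 :=
  (a.elt.toAdd, ⟨a.lev.val, by have := a.lev.isLt; omega⟩)

theorem no_low1 (n : ℕ) (hn : n < 2) (ψ : Face K1 → Cross Z4 n) (hm : Monotone ψ)
    (he : ∀ (g : Z4) (p : Face K1), ψ (g • p) = g • ψ p) : False := by
  classical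
  refine no_map1 (fun s => if h : K1 s then toPair hn (ψ ⟨s, h⟩) else (0, 0))
    ⟨K1_down, K1_inv, ?_, ?_⟩
  · intro s t hs ht hst
    simp only [dif_pos hs, dif_pos ht]
    have h1 : (⟨s, hs⟩ : Face K1) ≤ ⟨t, ht⟩ := hst
    rcases hm h1 with h2 | h2
    · exact Or.inl (congrArg (toPair hn) h2)
    · exact Or.inr h2
  · intro k s hs
    simp only [dif_pos hs, dif_pos (K1_inv k s hs)]
    have h1 : ψ ⟨sh k s, K1_inv k s hs⟩ = Multiplicative.ofAdd k • ψ ⟨s, hs⟩ :=
      he (Multiplicative.ofAdd k) ⟨s, hs⟩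
    exact congrArg (toPair hn) h1

theorem no_low2 (n : ℕ) (hn : n < 2) (ψ : Face K2 → Cross Z4 n) (hm : Monotone ψ)
    (he : ∀ (g : Z4) (p : Face K2), ψ (g • p) = g • ψ p) : False := by
  classical
  refine no_map2 (fun s => if h : K2 s then toPair hn (ψ ⟨s, h⟩) else (0, 0))
    ⟨K2_down, K2_inv, ?_, ?_⟩
  · intro s t hs ht hst
    simp only [dif_pos hs, dif_pos ht]
    have h1 : (⟨s, hs⟩ : Face K2) ≤ ⟨t, ht⟩ := hst
    rcases hm h1 with h2 | h2
    · exact Or.inl (congrArg (toPair hn) h2)
    · exact Or.inr h2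
  · intro k s hs
    simp only [dif_pos hs, dif_pos (K2_inv k s hs)]
    have h1 : ψ ⟨sh k s, K2_inv k s hs⟩ = Multiplicative.ofAdd k • ψ ⟨s, hs⟩ :=
      he (Multiplicative.ofAdd k) ⟨s, hs⟩
    exact congrArg (toPair hn) h1

theorem xind1 : Xind Z4 (Face K1) = 2 :=
  sInf_eq_two (exists_two K1 (fun _ h => h.1) K1_card simp1.free (fun g p => sh_card g.toAdd p.1))
    (fun ⟨ψ, hm, he⟩ => no_low1 0 (by norm_num) ψ hm he)
    (fun ⟨ψ, hm, he⟩ => no_low1 1 (by norm_num) ψ hm he)

theorem xind2 : Xind Z4 (Face K2) = 2 :=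
  sInf_eq_two (exists_two K2 (fun _ h => h.1) K2_card simp2.free (fun g p => sh_card g.toAdd p.1))
    (fun ⟨ψ, hm, he⟩ => no_low2 0 (by norm_num) ψ hm he)
    (fun ⟨ψ, hm, he⟩ => no_low2 1 (by norm_num) ψ hm he)

theorem xprod : Xind Z4 (Face K1 × Face K2) ≤ 1 := by
  apply Nat.sInf_le
  have hv : ∀ q : Face K2, ∃ v : V 3, v ∈ q.1 := fun q => q.2.1
  choose w hw using hv
  refine ⟨fun p => ⟨Multiplicative.ofAdd (phi (w p.2).2 p.1.1).1, (phi (w p.2).2 p.1.1).2⟩, ?_, ?_⟩
  · rintro ⟨p, q⟩ ⟨p', q'⟩ ⟨h1, h2⟩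
    have h3 : phi (w q).2 p.1 = phi (w q').2 p.1 :=
      phi_congr (K2_parity _ q'.2 _ _ (h2 (hw q)) (hw q')) _ p.2
    rcases phi_mono (w q').2 p.1 p'.1 p.2 p'.2 h1 with h4 | h4
    · left
      simp only [h3, h4]
    · right
      simp only [h3]
      exact h4
  · rintro g ⟨p, q⟩
    have h5 : ((w q).1, g.toAdd + (w q).2) ∈ sh g.toAdd q.1 := by
      rw [mem_sh]
      simpa using hw q
    have h6 : phi (w (g • q)).2 (sh g.toAdd p.1) =
        (g.toAdd + (phi (w q).2 p.1).1, (phi (w q).2 p.1).2) :=
      (phi_congr (K2_parity _ (g • q).2 _ _ (hw (g • q)) h5) _ (K1_inv _ _ p.2)).trans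
        (phi_eqv _ _ _)
    have h7 : (phi (w (g • q)).2 (sh g.toAdd p.1)).2 = (phi (w q).2 p.1).2 := by rw [h6]
    exact Cross.ext' (congrArg (fun z : ZMod 4 × Fin 2 => Multiplicative.ofAdd z.1) h6) h7

/-- **Q1 is false** for the nice group `ℤ/4`. -/
theorem result :
    (IsNice (Multiplicative (ZMod 4)) ∧
      ∃ (P Q : Type) (_ : PartialOrder P) (_ : PartialOrder Q)
        (_ : MulAction (Multiplicative (ZMod 4)) P) (_ : MulAction (Multiplicative (ZMod 4)) Q),
        IsFreeSimplicial (Multiplicative (ZMod 4)) P ∧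
        IsFreeSimplicial (Multiplicative (ZMod 4)) Q ∧
        Xind (Multiplicative (ZMod 4)) P = 2 ∧ Xind (Multiplicative (ZMod 4)) Q = 2 ∧
        Xind (Multiplicative (ZMod 4)) (P × Q) ≤ 1) ∧
    ¬ ∀ (G : Type) [Group G] [Finite G], IsNice G →
        ∀ (P Q : Type) [PartialOrder P] [PartialOrder Q] [MulAction G P] [MulAction G Q],
          IsFreeSimplicial G P → IsFreeSimplicial G Q →
          Xind G (P × Q) = min (Xind G P) (Xind G Q) := by
  refine ⟨⟨nice, Face K1, Face K2, inferInstance, inferInstance, inferInstance, inferInstance,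
    simp1, simp2, xind1, xind2, xprod⟩, fun h => ?_⟩
  have h1 := h Z4 nice (Face K1) (Face K2) simp1 simp2
  have h2 := xprod
  rw [h1, xind1, xind2] at h2
  norm_num at h2

end Pool.Agent.Results.MP_c44c69_co.SimplicialPosetsZ4
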